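import Pool.Agent.J4H50.IG.Jet

set_option autoImplicit false
set_option linter.unusedSectionVars false

/-! # The inverse of a formal coordinate change, modulo powers of the maximal ideal -/

namespace Pool.Agent.J4H13.YK

open MvPolynomial Pool.Agent.J4H50.IG

variable {σ : Type} {A : Type} [CommRing A]

/-- substitutions which agree up to terms of order two -/
theorem aeval_sub_mem_succ {τ : Type} {ψ φ : σ → MvPolynomial τ A} (hψ : ∀ i, ψ i ∈ mI τ A)
    (hφ : ∀ i, φ i ∈ mI τ A) (h : ∀ i, ψ i - φ i ∈ mI τ A ^ 2) (n : ℕ) {q : MvPolynomial σ A}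
    (hq : q ∈ mI σ A ^ n) : aeval ψ q - aeval φ q ∈ mI τ A ^ (n + 1) := by
  induction n generalizing q with
  | zero => exact pow_le (by omega) (aeval_sub_mem _ ψ φ h q)
  | succ n ih =>
    rw [pow_succ] at hq
    refine Submodule.mul_induction_on hq (fun a ha b hb => ?_) (fun a b ha hb => ?_)
    · have e : aeval ψ (a * b) - aeval φ (a * b) =
          (aeval ψ a - aeval φ a) * aeval ψ b + aeval φ a * (aeval ψ b - aeval φ b) := by
        rw [map_mul, map_mul]
        ring
      have hb1 : aeval ψ b ∈ mI τ A := by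
        have := aeval_mem ψ hψ 1 (q := b) (by rwa [pow_one])
        rwa [pow_one] at this
      have hb2 : aeval ψ b - aeval φ b ∈ mI τ A ^ 2 := aeval_sub_mem _ ψ φ h b
      rw [e]
      refine Ideal.add_mem _ ?_ ?_
      · rw [pow_succ]
        exact Ideal.mul_mem_mul (ih ha) hb1
      · have h3 := Ideal.mul_mem_mul (aeval_mem φ hφ n ha) hb2
        rw [← pow_add] at h3
        exact h3
    · have e : aeval ψ (a + b) - aeval φ (a + b) =
          (aeval ψ a - aeval φ a) + (aeval ψ b - aeval φ b) := by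
        rw [map_add, map_add]
        ring
      rw [e]
      exact Ideal.add_mem _ ha hb

theorem aeval_comp {τ υ : Type} (ψ : σ → MvPolynomial τ A) (φ : τ → MvPolynomial υ A)
    (q : MvPolynomial σ A) : aeval φ (aeval ψ q) = aeval (fun i => aeval φ (ψ i)) q := by
  rw [← AlgHom.comp_apply]
  congr 1
  ext i
  simp

variable [Fintype σ] [DecidableEq σ]

/-- the linear part -/
theorem lin_part {q : MvPolynomial σ A} (hq : q ∈ mI σ A) :
    q - ∑ i, C (constantCoeff (pderiv i q)) * X i ∈ mI σ A ^ 2 := by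
  rw [mem_pow_idealOfVars_iff']
  intro x hx
  rw [coeff_sub, coeff_sum]
  have hx' : x.degree = 0 ∨ x.degree = 1 := by omega
  rcases hx' with h0 | h1
  · have hx0 : x = 0 := by rwa [Finsupp.degree_eq_zero_iff] at h0
    subst hx0
    have h2 : coeff 0 q = 0 := (mem_m_iff q).1 hq
    rw [h2, zero_sub, neg_eq_zero]
    refine Finset.sum_eq_zero fun i _ => ?_
    rw [coeff_C_mul]
    have : coeff 0 (X i : MvPolynomial σ A) = 0 := constantCoeff_X A i
    rw [this, mul_zero]
  · obtain ⟨j, rfl⟩ : ∃ j, x = Finsupp.single j 1 := by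
      have h2 : x ≠ 0 := by
        rintro rfl
        simp at h1
      obtain ⟨j, hj⟩ := Finsupp.ne_iff.1 h2
      refine ⟨j, ?_⟩
      have h3 : x.degree = ∑ i, x i := by
        rw [Finsupp.degree_eq_sum]
      rw [h3, ← Finset.add_sum_erase _ _ (Finset.mem_univ j)] at h1
      have h4 : 1 ≤ x j := Nat.one_le_iff_ne_zero.2 hj
      have h5 : ∑ i ∈ Finset.univ.erase j, x i = 0 := by omega
      have h6 : x j = 1 := by omega
      rw [Finset.sum_eq_zero_iff] at h5
      ext i
      by_cases hij : i = j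
      · rw [hij, h6, Finsupp.single_eq_same]
      · rw [h5 i (Finset.mem_erase.2 ⟨hij, Finset.mem_univ _⟩), Finsupp.single_apply,
          if_neg (fun h => hij h.symm)]
    rw [sub_eq_zero]
    have h2 : ∀ i, coeff (Finsupp.single j 1) (C (constantCoeff (pderiv i q)) * X i) =
        if i = j then coeff (Finsupp.single j 1) q else 0 := by
      intro i
      rw [coeff_C_mul, coeff_X]
      by_cases hij : i = j
      · subst hij
        rw [if_pos rfl, if_pos rfl, mul_one, constantCoeff_eq, coeff_pderiv]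
        simp
      · rw [if_neg, if_neg hij, mul_zero]
        intro h
        exact hij ((Finsupp.single_left_inj one_ne_zero).1 h)
    simp only [h2, Finset.sum_ite_eq', Finset.mem_univ, if_true]

/-- an inverse on one side up to terms of order two is invertible -/
theorem nonDeg_of {ψ φ : σ → MvPolynomial σ A} (hψ : NonDeg ψ) (hφ : ∀ i, φ i ∈ mI σ A)
    (h : ∀ i, aeval ψ (φ i) - X i ∈ mI σ A ^ 2) : NonDeg φ := by
  refine ⟨fun i => (mem_m_iff _).1 (hφ i), ?_⟩
  have h1 := nonDeg_id (fun i => aeval ψ (φ i) - X i) h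
  have h2 : (fun i => X i + (aeval ψ (φ i) - X i)) = fun i => aeval ψ (φ i) := by
    funext i
    ring
  rw [h2] at h1
  have h3 := h1.2
  have h4 : ((JM φ).map (aeval ψ)).det = aeval ψ (JM φ).det := by
    rw [AlgHom.map_det]
    rfl
  rw [JM_comp, Matrix.det_mul, map_mul, h4, cc_aeval ψ hψ.1] at h3
  exact isUnit_of_mul_isUnit_right h3

/-- the inverse on one side -/
theorem left_inv {ψ : σ → MvPolynomial σ A} (hψ : NonDeg ψ) (n : ℕ) :
    ∃ φ : σ → MvPolynomial σ A, (∀ i, φ i ∈ mI σ A) ∧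
      ∀ i, aeval ψ (φ i) - X i ∈ mI σ A ^ (n + 2) := by
  -- the linear part
  obtain ⟨B, hB⟩ : ∃ B : Matrix σ σ A, B = (constantCoeff : MvPolynomial σ A →+* A).mapMatrix (JM ψ) :=
    ⟨_, rfl⟩
  have hBd : IsUnit B.det := by
    rw [hB, ← RingHom.map_det]
    exact hψ.2
  obtain ⟨φ₁, hφ₁⟩ : ∃ φ₁ : σ → MvPolynomial σ A, φ₁ = fun i => ∑ j, C (B⁻¹ j i) * X j := ⟨_, rfl⟩
  have hφ₁m : ∀ i, φ₁ i ∈ mI σ A := by
    intro i
    rw [hφ₁]
    exact Ideal.sum_mem _ fun j _ => Ideal.mul_mem_left _ _ (X_mem j)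
  have hlin : ∀ i, aeval ψ (φ₁ i) - X i ∈ mI σ A ^ 2 := by
    intro i
    have e1 : aeval ψ (φ₁ i) = ∑ j, C (B⁻¹ j i) * ψ j := by
      rw [hφ₁]
      simp only [map_sum, map_mul, aeval_X, aeval_C, algebraMap_eq]
    have e2 : (X i : MvPolynomial σ A) = ∑ j, C (B⁻¹ j i) * ∑ l, C (B l j) * X l := by
      have h1 : B * B⁻¹ = 1 := Matrix.mul_nonsing_inv B hBd
      simp only [Finset.mul_sum]
      rw [Finset.sum_comm]
      have h2 : ∀ l, ∑ j, C (B⁻¹ j i) * (C (B l j) * (X l : MvPolynomial σ A)) =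
          C ((1 : Matrix σ σ A) l i) * X l := by
        intro l
        rw [← h1, Matrix.mul_apply, map_sum, Finset.sum_mul]
        refine Finset.sum_congr rfl fun j _ => ?_
        rw [map_mul]
        ring
      simp only [h2]
      rw [Finset.sum_eq_single i]
      · rw [Matrix.one_apply_eq, C_1, one_mul]
      · intro l _ hl
        rw [Matrix.one_apply_ne hl, C_0, zero_mul]
      · intro h
        exact absurd (Finset.mem_univ i) h
    rw [e1, e2, ← Finset.sum_sub_distrib]
    refine Ideal.sum_mem _ fun j _ => ?_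
    rw [← mul_sub]
    refine Ideal.mul_mem_left _ _ ?_
    have h3 := lin_part (hψ.mem j)
    have h4 : ∀ l, B l j = constantCoeff (pderiv l (ψ j)) := by
      intro l
      rw [hB]
      rfl
    simp only [h4]
    exact h3
  induction n with
  | zero => exact ⟨φ₁, hφ₁m, hlin⟩
  | succ n ih =>
    obtain ⟨φ, hφ, h⟩ := ih
    refine ⟨fun i => φ i - aeval φ₁ (aeval ψ (φ i) - X i), fun i => ?_, fun i => ?_⟩
    · refine Ideal.sub_mem _ (hφ i) ?_
      have h1 : aeval ψ (φ i) - X i ∈ mI σ A ^ 1 := pow_le (by omega) (h i)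
      have h2 := aeval_mem φ₁ hφ₁m 1 h1
      rwa [pow_one] at h2
    · obtain ⟨r, hr⟩ : ∃ r, r = aeval ψ (φ i) - X i := ⟨_, rfl⟩
      have hrm : r ∈ mI σ A ^ (n + 2) := by
        rw [hr]
        exact h i
      have e : aeval ψ (φ i - aeval φ₁ (aeval ψ (φ i) - X i)) - X i =
          -(aeval (fun j => aeval ψ (φ₁ j)) r - aeval X r) := by
        rw [← hr, map_sub, aeval_comp φ₁ ψ r]
        have h1 : aeval X r = r := by
          rw [aeval_X_left, AlgHom.id_apply]
        rw [h1]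
        have h2 : aeval ψ (φ i) = r + X i := by
          rw [hr]
          ring
        rw [h2]
        ring
      rw [e]
      refine neg_mem ?_
      refine aeval_sub_mem_succ (fun j => ?_) (fun j => X_mem j) hlin (n + 2) hrm
      have h3 := aeval_mem ψ hψ.mem 1 (q := φ₁ j) (by rw [pow_one]; exact hφ₁m j)
      rwa [pow_one] at h3

/-- **The formal inverse.** -/
theorem inv_jet {ψ : σ → MvPolynomial σ A} (hψ : NonDeg ψ) (n : ℕ) :
    ∃ φ : σ → MvPolynomial σ A, NonDeg φ ∧ (∀ i, aeval φ (ψ i) - X i ∈ mI σ A ^ n) ∧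
      ∀ i, aeval ψ (φ i) - X i ∈ mI σ A ^ n := by
  obtain ⟨φ, hφm, hφ⟩ := left_inv hψ n
  have hφN : NonDeg φ := nonDeg_of hψ hφm fun i => pow_le (by omega) (hφ i)
  obtain ⟨χ, hχm, hχ⟩ := left_inv hφN n
  -- `χ = ψ` modulo `m ^ (n + 2)`
  have h1 : ∀ i, χ i - ψ i ∈ mI σ A ^ (n + 2) := by
    intro i
    have e1 : aeval ψ (aeval φ (χ i)) - ψ i ∈ mI σ A ^ (n + 2) := by
      have h2 := aeval_mem ψ hψ.mem (n + 2) (hχ i)
      rwa [map_sub, aeval_X] at h2
    have e2 : aeval ψ (aeval φ (χ i)) - χ i ∈ mI σ A ^ (n + 2) := by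
      rw [aeval_comp]
      have h2 := aeval_sub_mem (mI σ A ^ (n + 2)) (fun j => aeval ψ (φ j)) X hφ (χ i)
      rwa [aeval_X_left, AlgHom.id_apply] at h2
    have e3 : χ i - ψ i = (aeval ψ (aeval φ (χ i)) - ψ i) - (aeval ψ (aeval φ (χ i)) - χ i) := by
      ring
    rw [e3]
    exact Ideal.sub_mem _ e1 e2
  refine ⟨φ, hφN, fun i => pow_le (Nat.le_add_right n 2) ?_, fun i => pow_le (Nat.le_add_right n 2) (hφ i)⟩
  have h2 := aeval_mem φ hφm (n + 2) (h1 i)
  rw [map_sub] at h2
  have e : aeval φ (ψ i) - X i = (aeval φ (χ i) - X i) - (aeval φ (χ i) - aeval φ (ψ i)) := by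
    ring
  rw [e]
  exact Ideal.sub_mem _ (hχ i) h2

end Pool.Agent.J4H13.YK
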